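import Mathlib
import Pool.Agent.N251.GA.Leaves

/-!
# Project GA (helper251), leaf G3: good map for the signature `(2, 3, 3)` over any ring with
arithmetic data
-/

set_option autoImplicit false

namespace Pool.Agent.N608.GA.G3

open Pool.Agent.N251.GA

theorem main3 (R : Type) [CommRing R] (D : Ar R) (N : ℕ)
    (h : ABC D (Sg 2 3 3 1 1 (-1) N)) : ABC D fun t => ((6 * N : ℕ) : R) ∣ t.1 := by
  have := isDomain D
  have := charZero D
  obtain ⟨C₁, hC₁, hlow⟩ := hom_lower (fun p => (4 * p.2 * (p.1 ^ 3 - p.2 ^ 3)) ^ 3)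
    (fun p => (p.1 * (p.1 ^ 3 + 8 * p.2 ^ 3)) ^ 3) (by fun_prop) (by fun_prop) 12 (by norm_num)
    (fun t p => by simp only [Prod.smul_fst, Prod.smul_snd, smul_eq_mul]; ring)
    (fun t p => by simp only [Prod.smul_fst, Prod.smul_snd, smul_eq_mul]; ring)
    (by
      rintro ⟨x, z⟩ h1 h2
      simp only at h1 h2
      have h3 : 4 * z * (x ^ 3 - z ^ 3) = 0 := pow_eq_zero_iff (by norm_num) |>.1 h1
      have h4 : x * (x ^ 3 + 8 * z ^ 3) = 0 := pow_eq_zero_iff (by norm_num) |>.1 h2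
      rcases mul_eq_zero.1 h3 with h5 | h5
      · have h6 : z = 0 := (mul_eq_zero.1 h5).resolve_left (by norm_num)
        have h7 : x ^ 4 = 0 := by rw [h6] at h4; linear_combination h4
        rw [h6, (pow_eq_zero_iff (by norm_num)).1 h7]; rfl
      · rcases mul_eq_zero.1 h4 with h6 | h6
        · have h7 : z ^ 3 = 0 := by rw [h6] at h5; linear_combination -h5
          rw [h6, (pow_eq_zero_iff (by norm_num)).1 h7]; rfl
        · have h7 : z ^ 3 = 0 := by linear_combination (h6 - h5) / 9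
          have h8 : x ^ 3 = 0 := by linear_combination h5 + h7
          rw [(pow_eq_zero_iff (by norm_num)).1 h7, (pow_eq_zero_iff (by norm_num)).1 h8]; rfl)
  obtain ⟨C₂, hC₂, hup⟩ := hom_upper (fun p => 2 * (p.1 ^ 2 + p.1 * p.2 + p.2 ^ 2) *
    (p.1 ^ 3 + 8 * p.2 ^ 3) * (p.1 ^ 6 - 20 * p.1 ^ 3 * p.2 ^ 3 - 8 * p.2 ^ 6)) (by fun_prop) 11
    (fun t p => by simp only [Prod.smul_fst, Prod.smul_snd, smul_eq_mul]; ring)
  set K : ℝ := 1 + 2 ^ 12 * C₁ + C₂ with hK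
  refine transferTri D 12 11 K (by rw [hK]; nlinarith) one_pos (by norm_num) ?_ h
  rintro ⟨Z, Y, c⟩ ht hdvd
  obtain ⟨hab, hsum, hZ0, hY0, hc0⟩ := ht
  simp only at hab hsum hZ0 hY0 hc0 hdvd
  right
  obtain ⟨X, hX⟩ : ∃ X, X = Z + Y := ⟨_, rfl⟩
  have hc : c = -X := by rw [hX]; linear_combination hsum
  have hX0 : X ≠ 0 := by
    intro h0; rw [hc, h0, neg_zero] at hc0; exact hc0 rfl
  have hYX : Y = X - Z := by rw [hX]; ring
  obtain ⟨s, hs⟩ := hdvd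
  push_cast at hs
  have h2 : (2 : R) ≠ 0 := two_ne_zero
  have hZX : IsCoprime X Z := by
    have := hab.symm.add_mul_right_left 1
    rw [one_mul] at this
    rw [hX, add_comm]; exact this
  have h6Z : ¬ IsUnit Z := not_unit_of_dvd D (n := 6) (by norm_num) ⟨N * s, by push_cast; rw [hs]; ring⟩
  set Cc : R := X ^ 2 + X * Z + Z ^ 2 with hCc
  set Dd : R := X ^ 3 + 8 * Z ^ 3 with hDd
  set u : R := 4 * Z * (Y * Cc) with hu
  set v : R := X * Dd with hv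
  set w : R := X ^ 6 - 20 * X ^ 3 * Z ^ 3 - 8 * Z ^ 6 with hw
  have hYC : Y * Cc = X ^ 3 - Z ^ 3 := by rw [hCc, hYX]; ring
  have hu' : u = 4 * Z * (X ^ 3 - Z ^ 3) := by rw [hu, hYC]
  have hid : u ^ 3 + w ^ 2 = v ^ 3 := by
    rw [hu', hv, hw, hDd]; ring
  have hC0 : Cc ≠ 0 := by
    intro h0
    apply h6Z
    have h1 : Z ∣ X ^ 2 := ⟨-(X + Z), by rw [hCc] at h0; linear_combination h0⟩
    exact (hZX.pow_left (m := 2)).isUnit_of_dvd' h1 dvd_rfl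
  have h40 : (4 : R) ≠ 0 := by norm_num
  have hu0 : u ≠ 0 := mul_ne_zero (mul_ne_zero h40 hZ0) (mul_ne_zero hY0 hC0)
  -- coprimality
  have hcop : IsCoprime (u ^ 3) (w ^ 2) := by
    apply isCoprime_of_max
    intro P hPm h1 h3
    have hv3 : v ^ 3 ∈ P := by rw [← hid]; exact P.add_mem h1 h3
    have hvP : v ∈ P := hPm.isPrime.mem_of_pow_mem _ hv3
    have huP : u ∈ P := hPm.isPrime.mem_of_pow_mem _ h1
    have hZP : Z ∉ P := by
      intro h4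
      have h5 : X ^ 4 ∈ P := by
        have e : X ^ 4 = v - Z * (8 * X * Z ^ 2) := by rw [hv, hDd]; ring
        rw [e]; exact P.sub_mem hvP (P.mul_mem_right _ h4)
      exact not_both hZX hPm (hPm.isPrime.mem_of_pow_mem _ h5) h4
    have h2P : (2 : R) ∉ P := by
      intro h4
      exact hZP (mem_of_dvd ⟨3 * N * s, by rw [hs]; ring⟩ h4)
    have h3P : (3 : R) ∉ P := by
      intro h4
      exact hZP (mem_of_dvd ⟨2 * N * s, by rw [hs]; ring⟩ h4)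
    have h5 : X ^ 3 - Z ^ 3 ∈ P := by
      rw [hu'] at huP
      rcases hPm.isPrime.mem_or_mem huP with h4 | h4
      · exfalso
        rcases hPm.isPrime.mem_or_mem h4 with h5 | h5
        · have h6 : (2 : R) ^ 2 ∈ P := by norm_num; exact h5
          exact h2P (hPm.isPrime.mem_of_pow_mem _ h6)
        · exact hZP h5
      · exact h4
    rw [hv] at hvP
    rcases hPm.isPrime.mem_or_mem hvP with h4 | h4
    · have h6 : Z ^ 3 ∈ P := by
        have e : Z ^ 3 = X * X ^ 2 - (X ^ 3 - Z ^ 3) := by ring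
        rw [e]; exact P.sub_mem (P.mul_mem_right _ h4) h5
      exact hZP (hPm.isPrime.mem_of_pow_mem _ h6)
    · have h6 : 3 ^ 2 * Z ^ 3 ∈ P := by
        have e : 3 ^ 2 * Z ^ 3 = Dd - (X ^ 3 - Z ^ 3) := by rw [hDd]; ring
        rw [e]; exact P.sub_mem h4 h5
      rcases hPm.isPrime.mem_or_mem h6 with h7 | h7
      · exact h3P (hPm.isPrime.mem_of_pow_mem _ h7)
      · exact hZP (hPm.isPrime.mem_of_pow_mem _ h7)
  have htri0 : Tri (u ^ 3, w ^ 2, -v ^ 3) :=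
    tri_of D hcop (by rw [← hid]; ring) (pow_ne_zero _ hu0) (n := 2)
      (by norm_num) ⟨2 * Z * (Y * Cc) * u ^ 2, by push_cast; rw [hu]; ring⟩
  have hw20 : w ^ 2 ≠ 0 := htri0.2.2.2.1
  have hv30 : -v ^ 3 ≠ 0 := htri0.2.2.2.2
  have hw0 : w ≠ 0 := fun h0 => hw20 (by rw [h0]; simp)
  have hv0 : v ≠ 0 := fun h0 => hv30 (by rw [h0]; simp)
  have hD0 : Dd ≠ 0 := fun h0 => hv0 (by rw [hv, h0, mul_zero])
  have htri : Tri (w ^ 2, u ^ 3, -v ^ 3) :=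
    ⟨hcop.symm, by simp only; rw [← hid]; ring, hw20, htri0.2.2.1, hv30⟩
  -- local sizes
  have hcn : ∀ i, ‖D.σ i c‖ = ‖D.σ i X‖ := by
    intro i; rw [hc, map_neg, norm_neg]
  have hloc : ∀ i, ht D (Z, Y, c) i ≤ 2 * ‖(D.σ i X, D.σ i Z)‖ := by
    intro i
    rw [Prod.norm_def]
    simp only [ht]
    have h1 := le_max_left ‖D.σ i X‖ ‖D.σ i Z‖
    have h3 := le_max_right ‖D.σ i X‖ ‖D.σ i Z‖
    have h4 : ‖D.σ i Y‖ ≤ ‖D.σ i X‖ + ‖D.σ i Z‖ := by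
      rw [hYX, map_sub]; exact norm_sub_le _ _
    have h5 : 0 ≤ ‖D.σ i X‖ := norm_nonneg _
    have h6 := hcn i
    refine max_le (max_le ?_ ?_) ?_ <;> linarith
  have hnp : ∀ i, ‖(D.σ i X, D.σ i Z)‖ ≤ ht D (Z, Y, c) i := by
    intro i
    rw [Prod.norm_def]
    refine max_le ?_ (ht_ge1 D (Z, Y, c) i)
    have := ht_ge3 D (Z, Y, c) i
    simp only at this
    rwa [hcn i] at this
  refine ⟨(w ^ 2, u ^ 3, -v ^ 3), ⟨htri, ⟨w, u, v, by simp, by simp, by simp⟩, Or.inr (Or.inl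
    ⟨4 * (6 * s) * (Y * Cc) * u ^ 2, ?_⟩)⟩, ?_,
    2 * Cc * Dd * w, ?_, ?_, 6, ?_⟩
  · simp only
    have : u ^ 3 = 4 * Z * (Y * Cc) * u ^ 2 := by rw [hu]; ring
    rw [this, hs]; ring
  · intro i
    have h1 := hlow (D.σ i X, D.σ i Z)
    simp only at h1
    have e1 : 4 * D.σ i Z * (D.σ i X ^ 3 - D.σ i Z ^ 3) = D.σ i u := by
      rw [hu']; simp only [map_mul, map_sub, map_pow, map_ofNat]
    have e2 : D.σ i X * (D.σ i X ^ 3 + 8 * D.σ i Z ^ 3) = D.σ i v := by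
      rw [hv, hDd]; simp only [map_mul, map_add, map_pow, map_ofNat]
    rw [e1, e2] at h1
    have h3 : max ‖D.σ i u ^ 3‖ ‖D.σ i v ^ 3‖ ≤ ht D (w ^ 2, u ^ 3, -v ^ 3) i := by
      apply max_le
      · refine le_trans (le_of_eq ?_) (ht_ge2 D _ i)
        simp only [map_pow]
      · refine le_trans (le_of_eq ?_) (ht_ge3 D _ i)
        simp only [map_neg, norm_neg, map_pow]
    calc ht D (Z, Y, c) i ^ 12 ≤ (2 * ‖(D.σ i X, D.σ i Z)‖) ^ 12 :=
          pow_le_pow_left₀ (ht_nonneg D _ i) (hloc i) 12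
      _ = 2 ^ 12 * ‖(D.σ i X, D.σ i Z)‖ ^ 12 := mul_pow _ _ _
      _ ≤ 2 ^ 12 * (C₁ * ht D (w ^ 2, u ^ 3, -v ^ 3) i) := by
          apply mul_le_mul_of_nonneg_left _ (by norm_num)
          exact h1.trans (mul_le_mul_of_nonneg_left h3 hC₁.le)
      _ = 2 ^ 12 * C₁ * ht D (w ^ 2, u ^ 3, -v ^ 3) i := by ring
      _ ≤ _ := mul_le_mul_of_nonneg_right (by rw [hK]; linarith) (ht_nonneg D _ i)
  · exact mul_ne_zero (mul_ne_zero (mul_ne_zero h2 hC0) hD0) hw0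
  · intro i
    have h1 := hup (D.σ i X, D.σ i Z)
    have e1 : D.σ i (2 * Cc * Dd * w) = 2 * (D.σ i X ^ 2 + D.σ i X * D.σ i Z + D.σ i Z ^ 2) *
        (D.σ i X ^ 3 + 8 * D.σ i Z ^ 3) *
        (D.σ i X ^ 6 - 20 * D.σ i X ^ 3 * D.σ i Z ^ 3 - 8 * D.σ i Z ^ 6) := by
      simp only [hCc, hDd, hw, map_mul, map_sub, map_add, map_pow, map_ofNat]
    rw [e1]
    calc _ ≤ C₂ * ‖(D.σ i X, D.σ i Z)‖ ^ 11 := h1
      _ ≤ C₂ * ht D (Z, Y, c) i ^ 11 := by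
          apply mul_le_mul_of_nonneg_left _ hC₂.le
          exact pow_le_pow_left₀ (norm_nonneg _) (hnp i) 11
      _ ≤ _ := mul_le_mul_of_nonneg_right (by rw [hK]; nlinarith) (pow_nonneg (ht_nonneg D _ i) _)
  · simp only
    refine ⟨-(Z ^ 3 * Y ^ 3 * X ^ 3 * Cc ^ 3 * Dd ^ 3 * w ^ 4), ?_⟩
    have e1 : u ^ 3 = 64 * Z ^ 3 * Y ^ 3 * Cc ^ 3 := by rw [hu]; ring
    have e2 : v ^ 3 = X ^ 3 * Dd ^ 3 := by rw [hv]; ring
    rw [e1, e2, hc]; ring

theorem t : LeafG3 := by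
  intro R _ D N hN h
  exact near D (6 * N) (by omega) (main3 R D N h)

end Pool.Agent.N608.GA.G3
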